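import Pool.Agent.Q227.AT.Sep

set_option autoImplicit false
set_option linter.unusedSectionVars false

open Filter Topology Set Metric
open scoped Manifold ContDiff

namespace Pool.Agent.Q227.AT

open Pool.Agent.H721R2 Pool.Agent.H789R2.AN Pool.Agent.H789R2.GP Pool.Agent.W740.TC
open Pool.Agent.W740.TU (UnstInj anosov_symm transitive_symm)
open Pool.Agent.H779R2.To (IsToral)

section alg

variable {M : Type*} {m : ℕ} {f : M → M} {A : Matrix (Fin m) (Fin m) ℤ}
  {h : M → Fin m → AddCircle (1 : ℝ)}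

theorem iter_mat (hf : ∀ x i, h (f x) i = ∑ j, A i j • h x j) (n : ℕ) (x : M) (i : Fin m) :
    h (f^[n] x) i = ∑ j, (A ^ n) i j • h x j := by
  induction n generalizing x with
  | zero =>
    rw [pow_zero, Finset.sum_eq_single i]
    · simp
    · intro j _ hj
      rw [Matrix.one_apply_ne (Ne.symm hj), zero_smul]
    · simp
  | succ n ih =>
    rw [Function.iterate_succ_apply, ih]
    simp_rw [hf, Finset.smul_sum, smul_smul]
    rw [Finset.sum_comm]
    refine Finset.sum_congr rfl fun j _ => ?_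
    rw [← Finset.sum_smul, pow_succ, Matrix.mul_apply]

theorem rec_coord (hf : ∀ x i, h (f x) i = ∑ j, A i j • h x j) (x : M) (i : Fin m) :
    h (f^[m] x) i = ∑ j : Fin m, (-(A.charpoly.coeff j)) • h (f^[(j : ℕ)] x) i := by
  have h1 : A ^ m = ∑ j : Fin m, (-(A.charpoly.coeff j)) • A ^ (j : ℕ) := by
    have h2 := Matrix.aeval_self_charpoly A
    rw [Polynomial.aeval_eq_sum_range, Matrix.charpoly_natDegree_eq_dim, Fintype.card_fin,
      Finset.sum_range_succ] at h2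
    have h3 : A.charpoly.coeff m = 1 := by
      have h4 := A.charpoly_monic.coeff_natDegree
      rwa [Matrix.charpoly_natDegree_eq_dim, Fintype.card_fin] at h4
    rw [h3, one_smul] at h2
    rw [eq_neg_of_add_eq_zero_right h2, Finset.sum_range, ← Finset.sum_neg_distrib]
    refine Finset.sum_congr rfl fun j _ => ?_
    rw [neg_smul]
  rw [iter_mat hf, h1]
  simp_rw [iter_mat hf, Finset.smul_sum, smul_smul]
  rw [Finset.sum_comm]
  refine Finset.sum_congr rfl fun l _ => ?_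
  rw [← Finset.sum_smul, Matrix.sum_apply]
  rfl

end alg

theorem sep_of_toral {M : Type*} [TopologicalSpace M] {f : M → M} (hT : IsToral f) (x y : M)
    (hxy : x ≠ y) : ∃ u, Rec f u ∧ u x ≠ u y := by
  obtain ⟨m, A, h, -, -, hf⟩ := hT
  have h1 : h x ≠ h y := fun e => hxy (h.injective e)
  obtain ⟨i, hi⟩ := Function.ne_iff.mp h1
  refine ⟨⟨fun z => h z i, (continuous_apply i).comp h.continuous⟩, ?_, hi⟩
  refine ⟨m, fun j => -(A.charpoly.coeff j), 0, fun z => ?_⟩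
  rw [add_zero]
  exact rec_coord (h := h) hf z i

section manifold

variable {E : Type*} [NormedAddCommGroup E] [NormedSpace ℝ E] [FiniteDimensional ℝ E]
  {M : Type*} [TopologicalSpace M] [T2Space M] [CompactSpace M] [ConnectedSpace M]
  [ChartedSpace E M] [IsManifold 𝓘(ℝ, E) ∞ M]

theorem man_iff (f : Diffeomorph 𝓘(ℝ, E) 𝓘(ℝ, E) M M 1)
    (Es Eu : ∀ x : M, Submodule ℝ (TangentSpace 𝓘(ℝ, E) x)) (hA : IsAnosov f Es Eu) :
    List.TFAE [IsToral f,
      ∃ (k : ℕ) (A : Matrix (Fin k) (Fin k) ℤ) (c : Fin k → AddCircle (1 : ℝ))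
        (φ : C(M, Fin k → AddCircle (1 : ℝ))),
        (∀ x i, φ (f x) i = ∑ j, A i j • φ x j + c i) ∧ UnstInj f.symm φ,
      ∃ 𝒰 ∈ 𝓝ˢ (diagonal M), ∀ x y : M, x ≠ y →
        (∀ n : ℕ, (f.symm^[n] x, f.symm^[n] y) ∈ 𝒰) → ∃ u, Rec f u ∧ u x ≠ u y,
      ∃ 𝒰 ∈ 𝓝ˢ (diagonal M), ∀ x y : M, x ≠ y →
        (∀ n : ℕ, (f^[n] x, f^[n] y) ∈ 𝒰) → ∃ u, Rec f.symm u ∧ u x ≠ u y] := by
  tfae_have 1 → 2 := by
    rintro ⟨m, A, h, -, -, hf⟩
    refine ⟨m, A, 0, ⟨h, h.continuous⟩, fun x i => ?_, univ, univ_mem, fun x y _ hxy => ?_⟩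
    · rw [Pi.zero_apply, add_zero]
      exact hf x i
    · exact h.injective hxy
  tfae_have 2 → 1 := by
    rintro ⟨k, A, c, φ, h1, h2⟩
    exact (man_unst f Es Eu hA φ φ.continuous A c h1 h2).2.1
  tfae_have 1 → 3 := fun h => ⟨univ, univ_mem, fun x y hxy _ => sep_of_toral h x y hxy⟩
  tfae_have 3 → 1 := by
    rintro ⟨𝒰, h𝒰, h⟩
    exact (man_sep f Es Eu hA h𝒰 h).2.1
  tfae_have 1 → 4 := by
    intro h
    have h1 : IsToral f.symm := by
      have h2 : IsToral (f.toHomeomorph.symm.symm : M → M) := h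
      exact IsToral.inv f.toHomeomorph.symm h2
    exact ⟨univ, univ_mem, fun x y hxy _ => sep_of_toral h1 x y hxy⟩
  tfae_have 4 → 1 := by
    rintro ⟨𝒰, h𝒰, h⟩
    have h1 := (man_sep f.symm Eu Es (anosov_symm f Es Eu hA) h𝒰 h).2.1
    exact IsToral.inv f.toHomeomorph h1
  tfae_finish

end manifold

end Pool.Agent.Q227.AT
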