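import Pool.Agent.Q227.AT.Lin
import Pool.Agent.W740.TC.Main
import Pool.Agent.W740.TU.Sym

set_option autoImplicit false
set_option linter.unusedSectionVars false

open Filter Topology Set Metric
open scoped Manifold ContDiff

namespace Pool.Agent.Q227.AT

open Pool.Agent.H721R2 Pool.Agent.H789R2.AN Pool.Agent.H789R2.GP Pool.Agent.W740.TC
open Pool.Agent.W740.TU (UnstInj)
open Pool.Agent.H779R2.To (IsToral)

section abs

variable {X : Type*} [MetricSpace X] [CompactSpace X]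

theorem fsym_eq {f g : X ≃ₜ X} {N : ℕ} (hg : ∀ x, g x = f^[N] x) (m : ℕ) (z : X) :
    f.symm^[m] z = f.symm^[m % N] (g.symm^[m / N] z) := by
  have hgs : ∀ (q : ℕ) (z : X), f.symm^[N * q] z = g.symm^[q] z := by
    intro q
    induction q with
    | zero => intro z; rfl
    | succ q ih =>
      intro z
      have e2 : f.symm^[N] z = g.symm z := by
        apply g.injective
        rw [g.apply_symm_apply, hg, iterR]
      rw [Nat.mul_succ, Function.iterate_add_apply, e2, ih, ← Function.iterate_succ_apply]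
  have hj : m = m % N + N * (m / N) := (Nat.mod_add_div m N).symm
  conv_lhs => rw [hj]
  rw [Function.iterate_add_apply, hgs]

theorem back_small {f g : X ≃ₜ X} {N : ℕ} (hN : 1 ≤ N) (hg : ∀ x, g x = f^[N] x) {r : ℝ}
    (hr : 0 < r) : ∃ η > 0, ∀ x y, SR g.symm η x y →
      ∀ m, dist (f.symm^[m] x) (f.symm^[m] y) < r := by
  obtain ⟨δ, hδ, h1⟩ := T1_unif f.symm N hr
  refine ⟨δ / 2, half_pos hδ, fun x y hxy m => ?_⟩
  rw [fsym_eq hg, fsym_eq hg m y]
  exact h1 _ (Nat.mod_lt _ (by omega)).le _ _ ((hxy _).trans_lt (half_lt_self hδ))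

theorem back_tendsto {f g : X ≃ₜ X} {N : ℕ} (hN : 1 ≤ N) (hg : ∀ x, g x = f^[N] x) {c : ℝ}
    (h : LP g c) {x y : X} (hxy : SR g.symm c x y) :
    Tendsto (fun m => dist (f.symm^[m] x) (f.symm^[m] y)) atTop (𝓝 0) := by
  rw [Metric.tendsto_atTop]
  intro ε hε
  obtain ⟨δ, hδ, h1⟩ := T1_unif f.symm N hε
  have h5 : Tendsto (fun n : ℕ => c * (1 / 2 : ℝ) ^ n) atTop (𝓝 0) := by
    have := (tendsto_pow_atTop_nhds_zero_of_lt_one (by norm_num : (0:ℝ) ≤ 1 / 2)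
      (by norm_num)).const_mul c
    simpa using this
  obtain ⟨q₀, hq₀⟩ := eventually_atTop.mp ((tendsto_order.mp h5).2 δ hδ)
  refine ⟨N * q₀, fun m hm => ?_⟩
  rw [Real.dist_eq, sub_zero, abs_of_nonneg dist_nonneg, fsym_eq hg, fsym_eq hg m y]
  refine h1 _ (Nat.mod_lt _ (by omega)).le _ _ (lt_of_le_of_lt (h.cU _ _ hxy _) (hq₀ _ ?_))
  exact (Nat.le_div_iff_mul_le (by omega)).mpr (by rwa [Nat.mul_comm])

/-- **inj** from injectivity on local unstable sets -/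
theorem inj_of_unst {V : Type*} [NormedAddCommGroup V] [NormedSpace ℝ V] [FiniteDimensional ℝ V]
    {f : X ≃ₜ X} {k : ℕ} (D : TD f k V) (he : ∀ x y, D.e x = D.e y)
    {Vc : Type*} [NormedAddCommGroup Vc] [NormedSpace ℂ Vc] [FiniteDimensional ℂ Vc]
    (Pc : (Fin k → ℝ) → Vc) (hPcc : Continuous Pc) (hPc0 : Pc 0 = 0) (Tc : Module.End ℂ Vc)
    (hPc : ∀ v, Pc (D.Am v) = Tc (Pc v)) (hTc : ∀ ν : ℂ, Tc.HasEigenvalue ν → ‖ν‖ ≤ 1)
    (hn : ∀ v, D.P v = 0 → Pc v = 0 → v = 0)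
    {g : X ≃ₜ X} {N : ℕ} (hN : 1 ≤ N) (hg : ∀ x, g x = f^[N] x) {c : ℝ} (h : LP g c)
    (hU : UnstInj f.symm D.φ) :
    ∃ η > 0, ∀ x y, SR g.symm η x y → D.κ x y = 0 → x = y := by
  obtain ⟨η₀, hη₀⟩ := D.exists_sc
  obtain ⟨𝒰, h𝒰, hinj⟩ := hU
  rw [nhdsSet_diagonal_eq_uniformity] at h𝒰
  obtain ⟨ρ, hρ, hρ'⟩ := Metric.mem_uniformity_dist.mp h𝒰
  obtain ⟨η, hη, h1⟩ := back_small hN hg (lt_min hη₀.1 hρ)
  refine ⟨min η c, lt_min hη h.c_pos, fun x y hxy h0 => ?_⟩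
  have h2 := h1 x y (hxy.mono (min_le_left _ _))
  have h3 := back_tendsto hN hg h (hxy.mono (min_le_right _ _))
  have hb : D.b y - D.b x = 0 := by
    have : D.b x = D.b y := by
      unfold TD.b
      refine tsum_congr fun j => ?_
      rw [he (f^[j] x) (f^[j] y)]
    rw [this, sub_self]
  have hP : D.P (D.ψ x y) = 0 := by
    have h4 : D.P (D.ψ x y) + (D.b y - D.b x) = 0 := h0
    rwa [hb, add_zero] at h4
  set w : ℕ → Vc := fun m => Pc (D.ψ (f.symm^[m] x) (f.symm^[m] y)) with hw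
  have h5 : Pc (D.ψ x y) = 0 := by
    refine back_zero Tc hTc w (fun m => ?_) ?_
    · show Tc (Pc _) = Pc _
      rw [← hPc]
      congr 1
      have e1 : ∀ z : X, f.symm^[m] z = f (f.symm^[m + 1] z) := fun z => by
        rw [Function.iterate_succ_apply' f.symm, f.apply_symm_apply]
      have e2 : ‖D.Am (D.ψ (f.symm^[m + 1] x) (f.symm^[m + 1] y)) +
          (D.e (f.symm^[m + 1] y) - D.e (f.symm^[m + 1] x))‖ < 1 / 2 :=
        hη₀.2.2 _ _ ((h2 (m + 1)).trans_le (min_le_left _ _))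
      have e3 := D.ψ_f e2
      rw [he (f.symm^[m + 1] y) (f.symm^[m + 1] x), sub_self, add_zero] at e3
      rw [e1 x, e1 y, e3]
    · have e1 : Tendsto (fun m => D.ψ (f.symm^[m] x) (f.symm^[m] y)) atTop (𝓝 0) := by
        rw [Metric.tendsto_atTop]
        intro ε hε
        obtain ⟨δ, hδ, h6⟩ := D.ψ_small hε
        obtain ⟨m₀, hm₀⟩ := Metric.tendsto_atTop.mp h3 δ hδ
        refine ⟨m₀, fun m hm => ?_⟩
        rw [dist_zero_right]
        apply h6
        have := hm₀ m hm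
        rwa [Real.dist_eq, sub_zero, abs_of_nonneg dist_nonneg] at this
      have e2 := (hPcc.tendsto 0).comp e1
      rw [hPc0] at e2
      exact e2
  have h6 : D.ψ x y = 0 := hn _ hP h5
  apply hinj x y (fun m => hρ' ((h2 m).trans_le (min_le_right _ _)))
  funext i
  have h7 := D.ψ_coe x y i
  rw [h6] at h7
  have h8 : ((0 : ℝ) : AddCircle (1 : ℝ)) = D.φ y i - D.φ x i := h7
  rw [AddCircle.coe_zero] at h8
  exact (sub_eq_zero.mp h8.symm).symm

end abs

section manifold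

variable {E : Type*} [NormedAddCommGroup E] [NormedSpace ℝ E] [FiniteDimensional ℝ E]
  {M : Type*} [TopologicalSpace M] [T2Space M] [CompactSpace M] [ConnectedSpace M]
  [ChartedSpace E M] [IsManifold 𝓘(ℝ, E) ∞ M]

/-- Anosov diffeomorphisms with an affine toral map that is injective on local unstable sets. -/
theorem man_unst (f : Diffeomorph 𝓘(ℝ, E) 𝓘(ℝ, E) M M 1)
    (Es Eu : ∀ x : M, Submodule ℝ (TangentSpace 𝓘(ℝ, E) x)) (hA : IsAnosov f Es Eu)
    {k : ℕ} (φ : M → Fin k → AddCircle (1 : ℝ)) (hφ : Continuous φ)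
    (A : Matrix (Fin k) (Fin k) ℤ) (c : Fin k → AddCircle (1 : ℝ))
    (hφf : ∀ x i, φ (f x) i = ∑ j, A i j • φ x j + c i)
    (hU : UnstInj f.symm φ) : TopTransitive f ∧ IsToral f ∧
      (∃ q : E → M, IsCoveringMap q ∧ Function.Surjective q) ∧ Dense (Function.periodicPts f) := by
  have hlift : ∀ i, ∃ r : ℝ, ((r : ℝ) : AddCircle (1 : ℝ)) = c i := fun i =>
    QuotientAddGroup.mk_surjective (c i)
  choose r hr using hlift
  set e : M → Fin k → ℝ := fun _ => r with he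
  have hec : Continuous e := continuous_const
  have hφe : ∀ x i, φ (f x) i = ∑ j, A i j • φ x j + ((e x i : ℝ) : AddCircle (1 : ℝ)) := by
    intro x i
    rw [hφf x i, ← hr i]
  set T := cx A with hT
  have hc := W_compl T
  let Pu : (Fin k → ℝ) →ₗ[ℝ] Wu T :=
    (((Wu T).projectionOnto (Wc T) hc).restrictScalars ℝ) ∘ₗ inc k
  let Pc : (Fin k → ℝ) →ₗ[ℝ] Wc T :=
    (((Wc T).projectionOnto (Wu T) hc.symm).restrictScalars ℝ) ∘ₗ inc k
  have hsum : ∀ v, inc k v = (Pu v : Fin k → ℂ) + (Pc v : Fin k → ℂ) := fun v =>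
    (Submodule.projection_add_projection_eq_self hc (inc k v)).symm
  have huniq : ∀ (a a' : Wu T) (b b' : Wc T),
      (a : Fin k → ℂ) + (b : Fin k → ℂ) = (a' : Fin k → ℂ) + (b' : Fin k → ℂ) →
      a = a' ∧ b = b' := by
    intro a a' b b' h
    have h1 : (a : Fin k → ℂ) - a' = b' - b := by
      rw [sub_eq_sub_iff_add_eq_add, h, add_comm]
    have h2 : (a : Fin k → ℂ) - a' ∈ Wu T := (Wu T).sub_mem a.2 a'.2
    have h3 : (a : Fin k → ℂ) - a' ∈ Wc T := by rw [h1]; exact (Wc T).sub_mem b'.2 b.2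
    have h4 := hc.disjoint.le_bot ⟨h2, h3⟩
    rw [Submodule.mem_bot] at h4
    refine ⟨Subtype.ext (sub_eq_zero.mp h4), Subtype.ext ?_⟩
    rw [h4] at h1
    exact (sub_eq_zero.mp h1.symm).symm
  have hcomm : ∀ v : Fin k → ℝ, Pu (fun i => ∑ j, (A i j : ℝ) * v j) = Tu T (Pu v) ∧
      Pc (fun i => ∑ j, (A i j : ℝ) * v j) = Tc T (Pc v) := by
    intro v
    apply huniq
    rw [← hsum, ← cx_inc, Tu_coe, Tc_coe, ← map_add, ← hsum]
  have hpowu : ∀ (n : ℕ) (v : Wu T), (Tu T)^[n] v = ((Tu T) ^ n) v := fun n v => by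
    rw [Module.End.pow_apply]
  have hBexp : Expanding ((Tu T).restrictScalars ℝ : Wu T →ₗ[ℝ] Wu T) := by
    obtain ⟨C, l, h0, h1, h2⟩ := Tu_exp T
    refine ⟨C, l, h0, h1, fun n v => ?_⟩
    have h3 : ((Tu T).restrictScalars ℝ : Wu T →ₗ[ℝ] Wu T)^[n] v = ((Tu T) ^ n) v := by
      rw [← hpowu]
      rfl
    rw [h3]
    exact h2 n v
  obtain ⟨m, ee, hee, hemb, hinj⟩ := exists_embedding_euclidean_of_compact (I := 𝓘(ℝ, E)) (M := M)
  let _ : MetricSpace M := hemb.isEmbedding.comapMetricSpace ee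
  have hiso : ∀ x y : M, dist x y = ‖ee x - ee y‖ := fun x y => dist_eq_norm (ee x) (ee y)
  have he1 : ContMDiff 𝓘(ℝ, E) (𝓡 m) 1 ee := hee.of_le (by simp)
  obtain ⟨D, hD1, hDA, hD2, N₀, hN₀, hDe⟩ : ∃ (D : TD f.toHomeomorph k (Wu T)), D.φ = φ ∧ D.A = A ∧
      (D.P : (Fin k → ℝ) → Wu T) = Pu ∧ ∃ N₀ : ℕ, (∀ n ≥ N₀, ∀ v, ‖D.B.symm^[n] v‖ ≤ ‖v‖ / 2) ∧
      ∀ x y, D.e x = D.e y := by
    obtain ⟨D, hD1, hDA, hD2, N₀, hN₀⟩ := exists_TD f.toHomeomorph φ hφ A e hec hφe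
      ((Tu T).restrictScalars ℝ : Wu T →ₗ[ℝ] Wu T) hBexp Pu (fun v => (hcomm v).1)
    let D' : TD f.toHomeomorph k (Wu T) :=
      { D with
        φ := φ
        cφ := hφ
        A := A
        e := e
        ce := hec
        eq := hφe
        PA := fun v => by rw [← hDA]; exact D.PA v }
    exact ⟨D', rfl, rfl, hD2, N₀, hN₀, fun x y => rfl⟩
  obtain ⟨n, S, hn, hg, hSe, hVs, hVu⟩ := exists_sys_ge hiso he1 hinj f Es Eu hA (max N₀ 1)
  have hn1 : 1 ≤ n := (le_max_right _ _).trans hn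
  have hgi : ∀ x, S.g x = (f.toHomeomorph)^[n] x := fun x => by
    rw [hg]; rfl
  obtain ⟨c', h⟩ := exists_LP S
  have hU' : UnstInj f.toHomeomorph.symm D.φ := by
    rw [hD1]
    exact hU
  have hPcc : Continuous Pc := LinearMap.continuous_of_finiteDimensional Pc
  obtain ⟨η₁, hη₁, hinj'⟩ := inj_of_unst D hDe Pc hPcc (map_zero Pc) (Tc T) (fun v => by
      have h2 : D.Am v = fun i => ∑ j, (A i j : ℝ) * v j := by
        unfold TD.Am
        rw [hDA]
      rw [h2]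
      exact (hcomm v).2) (Tc_eig T) (fun v hv1 hv2 => by
      rw [hD2] at hv1
      have h2 : inc k v = 0 := by
        rw [hsum, hv1, hv2]
        simp
      rw [← norm_eq_zero, ← inc_norm, h2, norm_zero]) hn1 hgi h hU'
  obtain ⟨C⟩ := exists_coc D hgi (hN₀ n ((le_max_left _ _).trans hn)) hη₁ hinj'
  obtain ⟨h1, h2, q₀, hq₀⟩ := abs_main (E' := E) S C f.toHomeomorph n hn1
    (fun x => (hgi x).symm)
  refine ⟨fun U W hU hUn hW hWn => ?_, h2, ⟨q₀, hq₀, covering_surj hq₀⟩, fun x => ?_⟩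
  swap
  · rw [Metric.mem_closure_iff]
    intro ε hε
    obtain ⟨y, N, hN1, hy, hd⟩ := Pool.Agent.H779R2.An.periodic_dense S h1 x ε hε
    refine ⟨y, ⟨n * N, Nat.mul_pos hn1 hN1, ?_⟩, by rwa [dist_comm]⟩
    rw [Function.IsPeriodicPt, Function.IsFixedPt]
    have h3 : S.g^[N] = f^[n * N] := by
      rw [Function.iterate_mul]
      congr 1
      funext x
      exact hgi x
    rw [← h3]
    exact hy
  obtain ⟨q, hq⟩ := h1 U W hU hUn hW hWn
  refine ⟨n * q, ?_⟩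
  have h3 : S.g^[q] = f^[n * q] := by
    rw [Function.iterate_mul]
    congr 1
    funext x
    exact hgi x
  rw [h3] at hq
  exact hq

end manifold

end Pool.Agent.Q227.AT
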