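import Pool.Agent.Q227.AT.Main

set_option autoImplicit false
set_option linter.unusedSectionVars false

open Filter Topology Set Metric
open scoped Manifold ContDiff

namespace Pool.Agent.Q227.AT

open Pool.Agent.H721R2 Pool.Agent.H789R2.AN Pool.Agent.H789R2.GP Pool.Agent.W740.TC
open Pool.Agent.W740.TU (UnstInj)
open Pool.Agent.H779R2.To (IsToral)

/-- The continuous function `u : M → ℝ/ℤ` satisfies a linear recurrence along `f` with integer
coefficients, up to a constant: `u(f^k x) = ∑_{j < k} c_j u(f^j x) + b` for all `x`. -/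
def Rec {M : Type*} [TopologicalSpace M] (f : M → M) (u : C(M, AddCircle (1 : ℝ))) : Prop :=
  ∃ (k : ℕ) (c : Fin k → ℤ) (b : AddCircle (1 : ℝ)),
    ∀ x, u (f^[k] x) = ∑ j, c j • u (f^[(j : ℕ)] x) + b

/-- recurrence of the order `k` -/
def RecK {M : Type*} [TopologicalSpace M] (f : M → M) (k : ℕ) (u : C(M, AddCircle (1 : ℝ))) :
    Prop :=
  ∃ (c : Fin k → ℤ) (b : AddCircle (1 : ℝ)),
    ∀ x, u (f^[k] x) = ∑ j, c j • u (f^[(j : ℕ)] x) + b

section abs

variable {M : Type*} [TopologicalSpace M] {f : M → M} {u : C(M, AddCircle (1 : ℝ))}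

theorem RecK.succ {k : ℕ} (h : RecK f k u) : RecK f (k + 1) u := by
  obtain ⟨c, b, h⟩ := h
  refine ⟨Fin.cons 0 c, b, fun x => ?_⟩
  rw [Fin.sum_univ_succ, Function.iterate_succ_apply, h (f x)]
  simp [Function.iterate_succ_apply]

theorem RecK.mono {k l : ℕ} (h : RecK f k u) (hkl : k ≤ l) : RecK f l u := by
  induction l, hkl using Nat.le_induction with
  | base => exact h
  | succ l _ ih => exact ih.succ

theorem RecK.all {k : ℕ} (h : RecK f k u) {x y : M}
    (hxy : ∀ j : Fin k, u (f^[(j : ℕ)] x) = u (f^[(j : ℕ)] y)) (n : ℕ) :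
    u (f^[n] x) = u (f^[n] y) := by
  obtain ⟨c, b, h⟩ := h
  induction n using Nat.strong_induction_on with
  | _ n ih =>
    rcases lt_or_ge n k with hn | hn
    · exact hxy ⟨n, hn⟩
    · obtain ⟨m, rfl⟩ := Nat.exists_eq_add_of_le hn
      rw [Function.iterate_add_apply, Function.iterate_add_apply, h, h]
      congr 1
      refine Finset.sum_congr rfl fun j _ => ?_
      rw [← Function.iterate_add_apply, ← Function.iterate_add_apply, ih _ (by omega)]

end abs

section met

variable {X : Type*} [MetricSpace X] [CompactSpace X]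

theorem exists_family (f : X ≃ₜ X) {r : ℝ} (hr : 0 < r)
    (hexp : ∀ x y, (∀ n, dist (f^[n] x) (f^[n] y) < r) →
      (∀ n, dist (f.symm^[n] x) (f.symm^[n] y) < r) → x = y)
    {𝒰 : Set (X × X)} (h𝒰 : 𝒰 ∈ 𝓝ˢ (diagonal X))
    (hsep : ∀ x y, x ≠ y → (∀ n : ℕ, (f.symm^[n] x, f.symm^[n] y) ∈ 𝒰) →
      ∃ u, Rec f u ∧ u x ≠ u y) :
    ∃ (p K : ℕ) (u : Fin p → C(X, AddCircle (1 : ℝ))), (∀ i, RecK f K (u i)) ∧
      UnstInj f.symm (fun x (a : Fin p × Fin K) => u a.1 (f^[(a.2 : ℕ)] x)) := by
  classical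
  rw [nhdsSet_diagonal_eq_uniformity] at h𝒰
  obtain ⟨ρ, hρ, hρ'⟩ := Metric.mem_uniformity_dist.mp h𝒰
  set s := min r (ρ / 2) with hs
  have hs0 : 0 < s := lt_min hr (half_pos hρ)
  obtain ⟨δ', hδ'0, hδ'⟩ := Metric.uniformContinuous_iff.mp
    (CompactSpace.uniformContinuous_of_continuous f.continuous) s hs0
  set δ := min δ' s with hδ
  have hδ0 : 0 < δ := lt_min hδ'0 hs0
  let K₀ : Set (X × X) := {p | (∀ n : ℕ, dist (f.symm^[n] p.1) (f.symm^[n] p.2) ≤ s) ∧
    δ ≤ dist p.1 p.2}
  have hclosed : IsClosed K₀ := by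
    have h1 : K₀ = (⋂ n : ℕ, {p : X × X | dist (f.symm^[n] p.1) (f.symm^[n] p.2) ≤ s}) ∩
        {p | δ ≤ dist p.1 p.2} := by
      ext p
      simp [K₀]
    rw [h1]
    refine (isClosed_iInter fun n => isClosed_le ?_ continuous_const).inter
      (isClosed_le continuous_const continuous_dist)
    exact ((f.symm.continuous.iterate n).comp continuous_fst).dist
      ((f.symm.continuous.iterate n).comp continuous_snd)
  have hcomp : IsCompact K₀ := hclosed.isCompact
  let O : {u : C(X, AddCircle (1 : ℝ)) // Rec f u} → Set (X × X) := fun u =>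
    {p | u.1 p.1 ≠ u.1 p.2}
  have hO : ∀ u, IsOpen (O u) := fun u =>
    isOpen_ne_fun (u.1.continuous.comp continuous_fst) (u.1.continuous.comp continuous_snd)
  have hcov : K₀ ⊆ ⋃ u, O u := by
    rintro ⟨x, y⟩ ⟨h1, h2⟩
    have hne : x ≠ y := by
      rintro rfl
      simp only [dist_self] at h2
      linarith
    obtain ⟨u, hu, hxy⟩ := hsep x y hne fun n => by
      apply hρ'
      refine (h1 n).trans_lt ?_
      exact (min_le_right _ _).trans_lt (half_lt_self hρ)
    exact mem_iUnion.mpr ⟨⟨u, hu⟩, hxy⟩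
  obtain ⟨t, ht⟩ := hcomp.elim_finite_subcover O hO hcov
  let ord : {u : C(X, AddCircle (1 : ℝ)) // Rec f u} → ℕ := fun u => u.2.choose
  have hord : ∀ u, RecK f (ord u) u.1 := fun u => u.2.choose_spec
  set K := t.sup ord with hK
  let en := t.equivFin
  refine ⟨t.card, K, fun i => (en.symm i).1.1, fun i => ?_, ?_⟩
  · exact (hord (en.symm i).1).mono (Finset.le_sup (f := ord) (en.symm i).2)
  · refine ⟨{p | dist p.1 p.2 < δ}, ?_, fun x y hxy heq => ?_⟩
    · rw [nhdsSet_diagonal_eq_uniformity]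
      exact Metric.dist_mem_uniformity hδ0
    · by_contra hne
      have hback : ∀ n, dist (f.symm^[n] x) (f.symm^[n] y) < δ := fun n => hxy n
      have hδs : δ ≤ s := min_le_right _ _
      have hsr : s ≤ r := min_le_left _ _
      have hex : ∃ n, δ ≤ dist (f^[n] x) (f^[n] y) := by
        by_contra hcon
        push Not at hcon
        exact hne (hexp x y (fun n => (hcon n).trans_le (hδs.trans hsr))
          (fun n => (hback n).trans_le (hδs.trans hsr)))
      set n := Nat.find hex with hn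
      have hn1 : δ ≤ dist (f^[n] x) (f^[n] y) := Nat.find_spec hex
      have hn2 : ∀ m < n, dist (f^[m] x) (f^[m] y) < δ := fun m hm => by
        have := Nat.find_min hex hm
        push Not at this
        exact this
      have hn0 : n ≠ 0 := by
        intro h0
        rw [h0] at hn1
        have := hback 0
        simp only [Function.iterate_zero, id] at hn1 this
        linarith
      obtain ⟨l, hl⟩ := Nat.exists_eq_succ_of_ne_zero hn0
      have hn3 : dist (f^[n] x) (f^[n] y) < s := by
        rw [hl, Function.iterate_succ_apply', Function.iterate_succ_apply']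
        apply hδ'
        exact (hn2 l (by omega)).trans_le (min_le_left _ _)
      have hmem : (f^[n] x, f^[n] y) ∈ K₀ := by
        refine ⟨fun m => ?_, hn1⟩
        rcases lt_trichotomy m n with h | h | h
        · obtain ⟨j, hj⟩ := Nat.exists_eq_add_of_lt h
          have e1 : ∀ z : X, f.symm^[m] (f^[n] z) = f^[n - m] z := fun z => by
            have : n = m + (n - m) := by omega
            conv_lhs => rw [this]
            rw [Function.iterate_add_apply, iterL]
          show dist (f.symm^[m] (f^[n] x)) (f.symm^[m] (f^[n] y)) ≤ s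
          rw [e1, e1]
          rcases Nat.eq_zero_or_pos m with h0 | h0
          · rw [h0, Nat.sub_zero]; exact hn3.le
          · exact ((hn2 (n - m) (by omega)).trans_le hδs).le
        · show dist (f.symm^[m] (f^[n] x)) (f.symm^[m] (f^[n] y)) ≤ s
          rw [h, iterL, iterL]
          have := hback 0
          simp only [Function.iterate_zero, id] at this
          exact (this.trans_le hδs).le
        · show dist (f.symm^[m] (f^[n] x)) (f.symm^[m] (f^[n] y)) ≤ s
          have e1 : ∀ z : X, f.symm^[m] (f^[n] z) = f.symm^[m - n] z := fun z => by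
            have : m = (m - n) + n := by omega
            conv_lhs => rw [this]
            rw [Function.iterate_add_apply, iterL]
          rw [e1, e1]
          exact ((hback _).trans_le hδs).le
      obtain ⟨u, hu⟩ := mem_iUnion.mp (ht hmem)
      obtain ⟨hut, hu2⟩ := mem_iUnion.mp hu
      apply hu2
      have hRec : RecK f K u.1 := (hord u).mono (Finset.le_sup (f := ord) hut)
      refine hRec.all (fun j => ?_) n
      have h3 := congrFun heq (en ⟨u, hut⟩, j)
      simpa using h3

end met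

section manifold

variable {E : Type*} [NormedAddCommGroup E] [NormedSpace ℝ E] [FiniteDimensional ℝ E]
  {M : Type*} [TopologicalSpace M] [T2Space M] [CompactSpace M] [ConnectedSpace M]
  [ChartedSpace E M] [IsManifold 𝓘(ℝ, E) ∞ M]

/-- an arbitrary finite index set -/
theorem man_fin (f : Diffeomorph 𝓘(ℝ, E) 𝓘(ℝ, E) M M 1)
    (Es Eu : ∀ x : M, Submodule ℝ (TangentSpace 𝓘(ℝ, E) x)) (hA : IsAnosov f Es Eu)
    {ι : Type} [Fintype ι] (φ : M → ι → AddCircle (1 : ℝ)) (hφ : ∀ a, Continuous fun x => φ x a)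
    (co : ι → ι → ℤ) (c : ι → AddCircle (1 : ℝ))
    (hφf : ∀ x i, φ (f x) i = ∑ j, co i j • φ x j + c i)
    (hU : UnstInj f.symm φ) : TopTransitive f ∧ IsToral f ∧
      (∃ q : E → M, IsCoveringMap q ∧ Function.Surjective q) ∧ Dense (Function.periodicPts f) := by
  classical
  let e := Fintype.equivFin ι
  refine man_unst f Es Eu hA (k := Fintype.card ι) (fun x i => φ x (e.symm i))
    (continuous_pi fun i => hφ _) (fun i j => co (e.symm i) (e.symm j)) (fun i => c (e.symm i))
    (fun x i => ?_) ?_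
  · rw [hφf]
    congr 1
    exact (Equiv.sum_comp e.symm (fun j => co (e.symm i) j • φ x j)).symm
  · obtain ⟨𝒰, h1, h2⟩ := hU
    refine ⟨𝒰, h1, fun x y hxy h => h2 x y hxy ?_⟩
    funext a
    have := congrFun h (e a)
    simpa using this

/-- Local separation by functions with a recurrence. -/
theorem man_sep (f : Diffeomorph 𝓘(ℝ, E) 𝓘(ℝ, E) M M 1)
    (Es Eu : ∀ x : M, Submodule ℝ (TangentSpace 𝓘(ℝ, E) x)) (hA : IsAnosov f Es Eu)
    {𝒰 : Set (M × M)} (h𝒰 : 𝒰 ∈ 𝓝ˢ (diagonal M))
    (hsep : ∀ x y, x ≠ y → (∀ n : ℕ, (f.symm^[n] x, f.symm^[n] y) ∈ 𝒰) →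
      ∃ u, Rec f u ∧ u x ≠ u y) : TopTransitive f ∧ IsToral f ∧
      (∃ q : E → M, IsCoveringMap q ∧ Function.Surjective q) ∧ Dense (Function.periodicPts f) := by
  classical
  obtain ⟨p, K, u, hu, hinjU⟩ : ∃ (p K : ℕ) (u : Fin p → C(M, AddCircle (1 : ℝ))),
      (∀ i, RecK f K (u i)) ∧
      UnstInj f.symm (fun x (a : Fin p × Fin K) => u a.1 (f^[(a.2 : ℕ)] x)) := by
    obtain ⟨m, ee, hee, hemb, hinj⟩ :=
      exists_embedding_euclidean_of_compact (I := 𝓘(ℝ, E)) (M := M)
    let _ : MetricSpace M := hemb.isEmbedding.comapMetricSpace ee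
    have hiso : ∀ x y : M, dist x y = ‖ee x - ee y‖ := fun x y => dist_eq_norm (ee x) (ee y)
    have he1 : ContMDiff 𝓘(ℝ, E) (𝓡 m) 1 ee := hee.of_le (by simp)
    obtain ⟨n, S, hn, hg, hSe, hVs, hVu⟩ := exists_sys_ge hiso he1 hinj f Es Eu hA 1
    have hgi : ∀ x, S.g x = (f.toHomeomorph)^[n] x := fun x => by
      rw [hg]; rfl
    obtain ⟨c', h⟩ := exists_LP S
    have hgn : ∀ (j : ℕ) (z : M), S.g^[j] z = f.toHomeomorph^[n * j] z := by
      intro j
      induction j with
      | zero => intro z; rfl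
      | succ j ih =>
        intro z
        rw [Function.iterate_succ_apply, ih, hgi, ← Function.iterate_add_apply, Nat.mul_succ]
    have hgs : ∀ (j : ℕ) (z : M), S.g.symm^[j] z = f.toHomeomorph.symm^[n * j] z := by
      intro j z
      apply (S.g.injective.iterate j)
      rw [iterR, hgn, iterR]
    refine exists_family f.toHomeomorph h.c_pos (fun x y h1 h2 => ?_) h𝒰 hsep
    refine expansive h (fun j => ?_) (fun j => ?_)
    · rw [hgn, hgn]; exact (h1 _).le
    · rw [hgs, hgs]; exact (h2 _).le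
  choose c b hcb using hu
  refine man_fin f Es Eu hA (ι := Fin p × Fin K) (fun x a => u a.1 (f^[(a.2 : ℕ)] x))
    (fun a => (u a.1).continuous.comp (f.continuous.iterate _))
    (fun a a' => if a.2.1 + 1 = K then (if a'.1 = a.1 then c a.1 a'.2 else 0) else
      (if a'.1 = a.1 ∧ a'.2.1 = a.2.1 + 1 then 1 else 0))
    (fun a => if a.2.1 + 1 = K then b a.1 else 0) (fun x a => ?_) hinjU
  obtain ⟨i, j⟩ := a
  show u i (f^[(j : ℕ)] (f x)) = _
  rw [← Function.iterate_succ_apply]
  by_cases hj : j.1 + 1 = K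
  · simp only [hj, if_true]
    rw [show (j : ℕ).succ = K from hj, hcb i x, Fintype.sum_prod_type]
    congr 1
    rw [Finset.sum_eq_single i]
    · simp
    · intro i' _ hi'
      simp [hi']
    · simp
  · simp only [hj, if_false, add_zero]
    have hj' : j.1 + 1 < K := by
      have := j.2
      omega
    rw [Finset.sum_eq_single (i, (⟨j.1 + 1, hj'⟩ : Fin K))]
    · simp
    · rintro ⟨i', j'⟩ _ hne
      rw [if_neg, zero_smul]
      rintro ⟨h1, h2⟩
      apply hne
      ext
      · exact congrArg Fin.val h1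
      · exact h2
    · simp

end manifold

end Pool.Agent.Q227.AT
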