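import Mathlib

set_option autoImplicit false

open Filter Topology

namespace Pool.Agent.Q227.AT

/-- A backward orbit that tends to `0` under a linear map without eigenvalues of modulus larger
than one is `0`. -/
theorem back_zero {W : Type*} [NormedAddCommGroup W] [NormedSpace ℂ W] [FiniteDimensional ℂ W]
    (T : Module.End ℂ W) (hT : ∀ ν : ℂ, T.HasEigenvalue ν → ‖ν‖ ≤ 1) (w : ℕ → W)
    (hw : ∀ n, T (w (n + 1)) = w n) (h0 : Tendsto w atTop (𝓝 0)) : w 0 = 0 := by
  have hTc : Continuous T := LinearMap.continuous_of_finiteDimensional T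
  let Z : Submodule ℂ W :=
    { carrier := {z | ∃ w : ℕ → W, w 0 = z ∧ (∀ n, T (w (n + 1)) = w n) ∧
        Tendsto w atTop (𝓝 0)}
      add_mem' := by
        rintro a b ⟨w, h1, h2, h3⟩ ⟨w', h1', h2', h3'⟩
        refine ⟨fun n => w n + w' n, by simp [h1, h1'], fun n => by simp [h2, h2'], ?_⟩
        simpa using h3.add h3'
      zero_mem' := ⟨fun _ => 0, rfl, fun _ => map_zero T, tendsto_const_nhds⟩
      smul_mem' := by
        rintro c a ⟨w, h1, h2, h3⟩
        refine ⟨fun n => c • w n, by simp [h1], fun n => by simp [h2], ?_⟩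
        simpa using h3.const_smul c }
  have hmem : ∀ w : ℕ → W, (∀ n, T (w (n + 1)) = w n) → Tendsto w atTop (𝓝 0) →
      ∀ k, w k ∈ Z := by
    intro w hw h0 k
    refine ⟨fun n => w (n + k), by simp, fun n => ?_, ?_⟩
    · show T (w (n + 1 + k)) = w (n + k)
      rw [show n + 1 + k = (n + k) + 1 by ring]
      exact hw _
    · exact (tendsto_add_atTop_iff_nat k).2 h0
  have hTZ : ∀ z ∈ Z, T z ∈ Z := by
    rintro z ⟨w, h1, h2, h3⟩
    refine ⟨fun n => T (w n), by simp [h1], fun n => by simp [h2], ?_⟩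
    have h4 := (hTc.tendsto 0).comp h3
    rwa [map_zero] at h4
  let S : Module.End ℂ Z := T.restrict hTZ
  have hSc : ∀ z : Z, ((S z : Z) : W) = T z := fun z => rfl
  have hsurj : Function.Surjective S := by
    rintro ⟨z, w, h1, h2, h3⟩
    refine ⟨⟨w 1, hmem w h2 h3 1⟩, Subtype.ext ?_⟩
    rw [hSc]
    show T (w 1) = z
    rw [← h1]
    exact h2 0
  have hinj : Function.Injective S := LinearMap.injective_iff_surjective.2 hsurj
  by_contra hne
  have : Nontrivial Z := ⟨⟨⟨w 0, hmem w hw h0 0⟩, 0, fun h => hne (by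
    have := congrArg (fun z : Z => (z : W)) h
    simpa using this)⟩⟩
  obtain ⟨ν, hν⟩ := Module.End.exists_eigenvalue S
  obtain ⟨z, hz⟩ := hν.exists_hasEigenvector
  have hz1 : S z = ν • z := hz.apply_eq_smul
  have hz0 : z ≠ 0 := hz.2
  have hz0' : (z : W) ≠ 0 := fun h => hz0 (Subtype.ext h)
  have hν0 : ν ≠ 0 := by
    rintro rfl
    rw [zero_smul] at hz1
    exact hz0 (hinj (by rw [hz1, map_zero]))
  have hνT : T.HasEigenvalue ν := by
    refine Module.End.hasEigenvalue_of_hasEigenvector (x := (z : W)) ⟨?_, hz0'⟩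
    rw [Module.End.mem_eigenspace_iff, ← hSc, hz1]
    rfl
  have hν1 := hT ν hνT
  obtain ⟨y, h1, h2, h3⟩ := z.2
  have hy : ∀ n, y n = (ν⁻¹) ^ n • (z : W) := by
    intro n
    induction n with
    | zero => simp [h1]
    | succ n ih =>
      have e1 : S ⟨y (n + 1), hmem y h2 h3 (n + 1)⟩ = S ((ν⁻¹) ^ (n + 1) • z) := by
        apply Subtype.ext
        rw [hSc]
        show T (y (n + 1)) = _
        rw [h2, ih, map_smul, hz1, smul_smul, pow_succ, mul_assoc, inv_mul_cancel₀ hν0, mul_one]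
        rfl
      have e2 := hinj e1
      have e3 := congrArg (fun v : Z => (v : W)) e2
      exact e3
  have h4 : Tendsto (fun n => ‖y n‖) atTop (𝓝 0) := by
    have := h3.norm
    rwa [norm_zero] at this
  have h5 : ∀ n, ‖(z : W)‖ ≤ ‖y n‖ := by
    intro n
    rw [hy, norm_smul, norm_pow, norm_inv]
    have h6 : 1 ≤ ‖ν‖⁻¹ := (one_le_inv₀ (norm_pos_iff.mpr hν0)).mpr hν1
    have h7 : 1 ≤ ‖ν‖⁻¹ ^ n := one_le_pow₀ h6
    nlinarith [norm_nonneg (z : W)]
  have h6 : ‖(z : W)‖ ≤ 0 := ge_of_tendsto' h4 h5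
  exact hz0' (norm_le_zero_iff.mp h6)

end Pool.Agent.Q227.AT
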